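import Pool.Agent.Helper42.FR.Stmts

/-! # FR: the row VAL -/

set_option autoImplicit false

namespace Pool.Agent.Helper88.FR

open Matrix Pool.Agent.Helper81.Fmr Pool.Agent.Helper42.FR

universe u

theorem val_core {F : Type u} [Field F] {V μ : Type} [DecidableEq V] [Fintype V] [Fintype μ]
    {S : Sys F V μ} {b : ℕ}
    {N : Matrix ((Fin 3 ⊕ Option (V × Fin 3)) × Fin b) ((Fin 3 ⊕ ((V × Bool) ⊕ μ)) × Fin b) F}
    (hN : IsCompletion (pm S) b N) : 3 * b ≤ N.rank := by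
  have h : N.submatrix (fun x : Fin 3 × Fin b => (Sum.inl x.1, x.2))
      (fun x : Fin 3 × Fin b => (Sum.inl x.1, x.2)) = 1 := by
    ext ⟨a, k⟩ ⟨a', l⟩
    have h1 := hN (Sum.inl a) (Sum.inl a') _ rfl k l
    simp only [Matrix.submatrix_apply, h1, Matrix.one_apply, Prod.mk.injEq]
    by_cases h2 : a = a' <;> by_cases h3 : k = l <;> simp [h2, h3]
  have h2 := rank_submatrix_le N (fun x : Fin 3 × Fin b => (Sum.inl x.1, x.2))
      (fun x : Fin 3 × Fin b => (Sum.inl x.1, x.2))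
  rw [h, rank_one] at h2
  simpa using h2

/-- one copy -/
theorem val_one {F : Type u} [Field F] {CA CS : ℕ}
    (hA : ∀ (b d : ℕ) (s s' t t' h h' k e : Matrix (Fin b) (Fin b) F),
      Rel d s s' t t' h h' k e → (Real.sqrt 5 - 2) * b ≤ e.rank + CA * d)
    (hB : ST_RB F)
    (hS : ∀ (b d : ℕ) (z : Vr → Matrix (Fin b) (Fin b) F),
      (∀ m, AE d (z ((SY F).l m) * z ((SY F).r m)) (z ((SY F).o m))) →
      (∀ i j a, i ≠ j → (SY F).d i j = some a → AE d (z i - z j) (a • 1)) →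
      (∀ i a, (SY F).k i = some a → z i = a • 1) →
      Rel (CS * d) (z .s) (z .s') (z .t) (z .t') (z .h) (z .h') (z .k) (z .e))
    (b d : ℕ)
    (N : Matrix ((Fin 3 ⊕ Option (Vr × Fin 3)) × Fin b)
      ((Fin 3 ⊕ ((Vr × Bool) ⊕ Fin pr.length)) × Fin b) F)
    (hN : IsCompletion (pm (SY F)) b N) (hr : N.rank ≤ 3 * b + d) :
    (Real.sqrt 5 - 2) * b ≤
      ((blk N (Sum.inr (some (Vr.e, 1))) (Sum.inl 2)).rank : ℝ) + (CA * CS * 20 : ℕ) * d := by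
  obtain ⟨h1, h2, h3⟩ := hB Vr (Fin pr.length) inferInstance inferInstance inferInstance (SY F) b d
    N hN hr _ rfl
  have h4 := hS b (20 * d) (fun i => blk N (Sum.inr (some (i, 1))) (Sum.inl 2)) h1 h2 h3
  have h5 := hA b (CS * (20 * d)) _ _ _ _ _ _ _ _ h4
  refine h5.trans (le_of_eq ?_)
  push_cast
  ring

theorem st_VAL (F : Type u) [Field F] (h1 : ST_ALG F) (h2 : ST_RB F) (h3 : ST_SR F)
    (h4 : ST_CO F) (h5 : ST_LO F) (h6 : ST_HI F) : ST_VAL F := by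
  obtain ⟨CA, hA⟩ := h1
  obtain ⟨CS, hS⟩ := h3
  obtain ⟨C1, hC1⟩ : ∃ C1 : ℕ, C1 = CA * CS * 20 := ⟨_, rfl⟩
  obtain ⟨K, hK⟩ : ∃ K : ℕ, K = C1 + 2 := ⟨_, rfl⟩
  refine ⟨K, ?_⟩
  have hθ : 0 ≤ Real.sqrt 5 - 2 := by
    have : (2 : ℝ) ≤ Real.sqrt 5 := Real.le_sqrt_of_sq_le (by norm_num)
    linarith
  obtain ⟨θ, hθe⟩ : ∃ θ : ℝ, θ = Real.sqrt 5 - 2 := ⟨_, rfl⟩
  rw [← hθe] at hθ
  have hone : ∀ (b d : ℕ)
      (N : Matrix ((Fin 3 ⊕ Option (Vr × Fin 3)) × Fin b)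
        ((Fin 3 ⊕ ((Vr × Bool) ⊕ Fin pr.length)) × Fin b) F),
      IsCompletion (pm (SY F)) b N → N.rank ≤ 3 * b + d →
      θ * b ≤ ((blk N (Sum.inr (some (Vr.e, 1))) (Sum.inl 2)).rank : ℝ) + (C1 : ℝ) * d := by
    intro b d N hN hr
    rw [hθe, hC1]
    exact val_one hA h2 hS b d N hN hr
  -- lower bound
  have hlow : ∀ b : ℕ+, (3 * K + θ) ≤
      (mr (tot K (SY F) Vr.e) (b : ℕ) : ℝ) / ((b : ℕ) : ℝ) := by
    intro b
    have hb : (0 : ℝ) < ((b : ℕ) : ℝ) := by exact_mod_cast b.2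
    rw [le_div_iff₀ hb]
    obtain ⟨M, hM, hMr⟩ := exists_mr (tot K (SY F) Vr.e) (b : ℕ)
    rw [← hMr]
    obtain ⟨N, hN, hL⟩ := h5 Vr (Fin pr.length) inferInstance inferInstance inferInstance (SY F)
      Vr.e K (b : ℕ) M hM
    have hKpos : 0 < K := by omega
    have : Nonempty (Fin K) := ⟨⟨0, hKpos⟩⟩
    obtain ⟨k0, hk0⟩ := Finite.exists_min (fun k => (N k).rank)
    have hc : ∀ k, 3 * (b : ℕ) ≤ (N k).rank := fun k => val_core (hN k)
    obtain ⟨d, hd⟩ := Nat.exists_eq_add_of_le (hc k0)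
    have hz := hone (b : ℕ) d (N k0) (hN k0) hd.le
    have hl := hL k0
    have hsum : (K - 1) * (3 * (b : ℕ) + d) ≤ ∑ k ∈ Finset.univ.erase k0, (N k).rank := by
      have h7 : ∑ _k ∈ Finset.univ.erase k0, (3 * (b : ℕ) + d) ≤
          ∑ k ∈ Finset.univ.erase k0, (N k).rank :=
        Finset.sum_le_sum fun k _ => by rw [← hd]; exact hk0 k
      rw [Finset.sum_const, Finset.card_erase_of_mem (Finset.mem_univ _), Finset.card_univ,
        Fintype.card_fin, smul_eq_mul] at h7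
      exact h7
    have hK1 : K - 1 = C1 + 1 := by omega
    rw [hK1] at hsum
    have hsumR : ((C1 : ℝ) + 1) * (3 * ((b : ℕ) : ℝ) + d) ≤
        ((∑ k ∈ Finset.univ.erase k0, (N k).rank : ℕ) : ℝ) := by exact_mod_cast hsum
    have hlR : ((∑ k ∈ Finset.univ.erase k0, (N k).rank : ℕ) : ℝ) + 3 * ((b : ℕ) : ℝ) +
        ((blk (N k0) (Sum.inr (some (Vr.e, 1))) (Sum.inl 2)).rank : ℝ) ≤ (M.rank : ℝ) := by
      exact_mod_cast hl
    have hKR : (K : ℝ) = C1 + 2 := by rw [hK]; push_cast; ring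
    have hd0 : (0 : ℝ) ≤ d := Nat.cast_nonneg d
    rw [hKR]
    have e1 : (3 * ((C1 : ℝ) + 2) + θ) * ((b : ℕ) : ℝ) =
        (C1 + 1) * (3 * ((b : ℕ) : ℝ)) + 3 * ((b : ℕ) : ℝ) + θ * ((b : ℕ) : ℝ) := by ring
    have e2 : ((C1 : ℝ) + 1) * (3 * ((b : ℕ) : ℝ) + d) =
        (C1 + 1) * (3 * ((b : ℕ) : ℝ)) + C1 * d + d := by ring
    rw [e1]
    linarith
  -- upper bound
  have hup : fmr (tot K (SY F) Vr.e) ≤ 3 * K + θ := by
    apply le_of_forall_pos_le_add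
    intro ε hε
    have hKp : (0 : ℝ) < K := by
      have : 0 < K := by omega
      exact_mod_cast this
    obtain ⟨b, hb, M, hM, hMr, hMe⟩ := h4 (ε / K) (by positivity)
    have hbR : (0 : ℝ) < (b : ℝ) := by exact_mod_cast hb
    have hle : fmr (tot K (SY F) Vr.e) ≤ (mr (tot K (SY F) Vr.e) b : ℝ) / (b : ℝ) := by
      have := ciInf_le (f := fun b : ℕ+ => (mr (tot K (SY F) Vr.e) (b : ℕ) : ℝ) / ((b : ℕ) : ℝ))
        ⟨0, by rintro _ ⟨b, rfl⟩; positivity⟩ ⟨b, hb⟩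
      simpa [fmr] using this
    refine le_trans hle ?_
    rw [div_le_iff₀ hbR]
    have hH := h6 Vr (Fin pr.length) inferInstance inferInstance inferInstance (SY F) Vr.e K b M hM
    have hHR : (mr (tot K (SY F) Vr.e) b : ℝ) ≤ K * (M.rank : ℝ) +
        ((blk M (Sum.inr (some (Vr.e, 1))) (Sum.inl 2)).rank : ℝ) := by exact_mod_cast hH
    have h8 : (K : ℝ) * (M.rank : ℝ) ≤ K * (3 * b + ε / K * b) :=
      mul_le_mul_of_nonneg_left hMr hKp.le
    have h9 : (K : ℝ) * (3 * b + ε / K * b) = 3 * K * b + ε * b := by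
      field_simp
    rw [← hθe] at hMe
    have e3 : (3 * (K : ℝ) + θ + ε) * b = 3 * K * b + ε * b + θ * b := by ring
    rw [e3]
    linarith
  rw [← hθe]
  apply le_antisymm hup
  exact le_ciInf hlow

end Pool.Agent.Helper88.FR
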